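import Pool.Agent.MVS.Stmts

/-!
# MVZ: one rotation instead of a circle (MP_33f2b9_gt).  Part P: port of the library MVS

`Setup` now contains NO invariance: the curvature is at most one, `kappa = {0,1,2,3}` (so
`N = R e_4`, `P = R^4`), and `noz`: no geodesic of length less than `pi` orthogonal to `N` joins two
points of `N`.  All statements below are literally those of `Pool/Agent/MVS/Stmts.lean`.
-/

noncomputable section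

open scoped ContDiff Topology RealInnerProductSpace
open Set MeasureTheory

namespace Pool.Agent.MVZ

open Pool.Agent.RF Pool.Agent.MVS

/-- the standing hypotheses, without any symmetry -/
structure Setup (G : E5 → Bil E5) (κ : Finset (Fin 5)) (a b : ℝ) : Prop where
  cyl : IsCyl G
  sec : SecLe G
  cs : Cs κ a b
  four : κ = {0, 1, 2, 3}
  noz : ∀ ex : E5 × E5 → E5, IsExp G ex → ∀ σ, pP κ σ = 0 → σ ≠ 0 → ∀ v, pN κ v = 0 → v ≠ 0 →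
    G σ v v < Real.pi ^ 2 → pP κ (ex (σ, v)) ≠ 0

def EqvStatement : Prop :=
  ∀ (G : E5 → Bil E5) (κ : Finset (Fin 5)) (a b : ℝ), Setup G κ a b →
    True ∧
    (∀ σ, pP κ σ = 0 → σ ≠ 0 → ∀ v w, pP κ v = 0 → pN κ w = 0 → G σ v w = 0) ∧
    (∀ σ, pP κ σ = 0 → σ ≠ 0 → ∀ v w, pP κ v = 0 → pP κ w = 0 → pP κ (chris G σ v w) = 0)

def FrmStatement : Prop :=
  ∀ (G : E5 → Bil E5) (κ : Finset (Fin 5)) (a b : ℝ), Setup G κ a b →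
    ∃ Q : E5 → (E5 →L[ℝ] E5), IsFrm G κ Q

def NexStatement : Prop :=
  ∀ (G : E5 → Bil E5) (κ : Finset (Fin 5)) (a b : ℝ) (ex : E5 × E5 → E5) (Q : E5 → (E5 →L[ℝ] E5)),
    Setup G κ a b → IsExp G ex → IsFrm G κ Q → ∃ F : E5 → E5, NData G κ F

def GauStatement : Prop :=
  ∀ (G : E5 → Bil E5) (κ : Finset (Fin 5)) (a b : ℝ) (F : E5 → E5), Setup G κ a b → NData G κ F →
    ∀ z, pN κ z ≠ 0 → ∀ w,
      G (F z) (fderiv ℝ F z (pP κ z)) (fderiv ℝ F z w) = ⟪pP κ z, w⟫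

def FlaStatement : Prop :=
  ∀ (G : E5 → Bil E5) (κ : Finset (Fin 5)) (a b : ℝ) (F : E5 → E5), Setup G κ a b → NData G κ F →
    ∀ σ y, pP κ σ = 0 → σ ≠ 0 → pN κ y = 0 → ‖y‖ = 1 → ∀ w w' : E5, ∀ t : ℝ,
      HasDerivAt (fun s => G (gam F σ y s) (Vf κ F σ y w s) (Vf κ F σ y w' s))
        (G (gam F σ y t) (DVf G κ F σ y w t) (Vf κ F σ y w' t)
          + G (gam F σ y t) (Vf κ F σ y w t) (DVf G κ F σ y w' t)) t ∧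
      HasDerivAt (fun s => G (gam F σ y s) (DVf G κ F σ y w s) (Vf κ F σ y w' s))
        (G (gam F σ y t) (riem G (gam F σ y t) (Tv F σ y t) (Vf κ F σ y w t) (Tv F σ y t))
            (Vf κ F σ y w' t)
          + G (gam F σ y t) (DVf G κ F σ y w t) (DVf G κ F σ y w' t)) t

def FllStatement : Prop :=
  ∀ (G : E5 → Bil E5) (κ : Finset (Fin 5)) (a b : ℝ) (F : E5 → E5), Setup G κ a b → NData G κ F →
    ∀ σ y, pP κ σ = 0 → σ ≠ 0 → pN κ y = 0 → ∀ w w' : E5, ∀ r t : ℝ,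
      Vf κ F σ y (w + w') t = Vf κ F σ y w t + Vf κ F σ y w' t ∧
      Vf κ F σ y (r • w) t = r • Vf κ F σ y w t ∧
      DVf G κ F σ y (w + w') t = DVf G κ F σ y w t + DVf G κ F σ y w' t ∧
      DVf G κ F σ y (r • w) t = r • DVf G κ F σ y w t

def FlbStatement : Prop :=
  ∀ (G : E5 → Bil E5) (κ : Finset (Fin 5)) (a b : ℝ) (F : E5 → E5), Setup G κ a b → NData G κ F →
    ∀ σ y, pP κ σ = 0 → σ ≠ 0 → pN κ y = 0 → ‖y‖ = 1 → ∀ w w' : E5, ∀ t : ℝ,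
      G (gam F σ y t) (Tv F σ y t) (Tv F σ y t) = 1 ∧
      Vf κ F σ y w 0 = pN κ w ∧
      G σ (DVf G κ F σ y w 0) (pN κ w') = 0 ∧
      - G (gam F σ y t) (Vf κ F σ y w t) (Vf κ F σ y w t) ≤
        G (gam F σ y t) (riem G (gam F σ y t) (Tv F σ y t) (Vf κ F σ y w t) (Tv F σ y t))
          (Vf κ F σ y w t) ∧
      (pN κ w = 0 → G σ (DVf G κ F σ y w 0) (DVf G κ F σ y w 0) = ⟪w, w⟫) ∧
      (Vf κ F σ y y t = t • Tv F σ y t ∧ DVf G κ F σ y y t = Tv F σ y t) ∧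
      (Vf κ F σ y σ t = gam F σ y t ∧ DVf G κ F σ y σ t = 0) ∧
      G (gam F σ y t) (gam F σ y t) (Vf κ F σ y w t) = ⟪σ, w⟫ / ‖σ‖ ^ 2 ∧
      G (gam F σ y t) (Tv F σ y t) (Vf κ F σ y w t) = t * ⟪y, w⟫

def FlcStatement : Prop :=
  ∀ (G : E5 → Bil E5) (κ : Finset (Fin 5)) (a b : ℝ) (F : E5 → E5), Setup G κ a b → NData G κ F →
    ∀ σ y, pP κ σ = 0 → σ ≠ 0 → pN κ y = 0 → ‖y‖ = 1 → ∀ w w' : E5, ∀ t : ℝ,
      G (gam F σ y t) (DVf G κ F σ y w t) (Vf κ F σ y w' t) =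
        G (gam F σ y t) (Vf κ F σ y w t) (DVf G κ F σ y w' t)

def BndStatement : Prop :=
  ∀ (G : E5 → Bil E5) (κ : Finset (Fin 5)) (a b : ℝ) (F : E5 → E5), Setup G κ a b → NData G κ F →
    ∀ σ y, pP κ σ = 0 → σ ≠ 0 → pN κ y = 0 → ‖y‖ = 1 → ∀ w : E5, ∀ t : ℝ,
      (0 ≤ t → t < Real.pi / 2 →
        - Real.tan t * G (gam F σ y t) (Vf κ F σ y w t) (Vf κ F σ y w t) ≤
          G (gam F σ y t) (DVf G κ F σ y w t) (Vf κ F σ y w t) ∧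
        G σ (pN κ w) (pN κ w) * Real.cos t ^ 2 ≤
          G (gam F σ y t) (Vf κ F σ y w t) (Vf κ F σ y w t)) ∧
      (pN κ w = 0 → 0 < t → t < Real.pi →
        Real.cot t * G (gam F σ y t) (Vf κ F σ y w t) (Vf κ F σ y w t) ≤
          G (gam F σ y t) (DVf G κ F σ y w t) (Vf κ F σ y w t) ∧
        ⟪w, w⟫ * Real.sin t ^ 2 ≤ G (gam F σ y t) (Vf κ F σ y w t) (Vf κ F σ y w t))

def InvStatement : Prop :=
  ∀ (G : E5 → Bil E5) (κ : Finset (Fin 5)) (a b : ℝ) (F : E5 → E5), Setup G κ a b → NData G κ F →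
    ∀ z, pN κ z ≠ 0 → ‖pP κ z‖ < Real.pi / 2 → Function.Injective (fderiv ℝ F z)

def NozStatement : Prop :=
  ∀ (G : E5 → Bil E5) (κ : Finset (Fin 5)) (a b : ℝ) (F : E5 → E5), Setup G κ a b → NData G κ F →
    ∀ z, pN κ z ≠ 0 → 0 < ‖pP κ z‖ → ‖pP κ z‖ < Real.pi → pP κ (F z) ≠ 0

def CoaStatement : Prop :=
  ∀ (G : E5 → Bil E5) (κ : Finset (Fin 5)) (a b : ℝ) (F : E5 → E5), Setup G κ a b → NData G κ F →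
    (∃ z₁ z₂, pN κ z₁ ≠ 0 ∧ pN κ z₂ ≠ 0 ∧ ‖pP κ z₁‖ < Real.pi / 2 ∧ ‖pP κ z₂‖ < Real.pi / 2 ∧
      F z₁ = F z₂ ∧ z₁ ≠ z₂) →
    ∃ z₁ z₂, pN κ z₁ ≠ 0 ∧ pN κ z₂ ≠ 0 ∧ 0 < ‖pP κ z₁‖ ∧ ‖pP κ z₁‖ < Real.pi / 2 ∧
      0 < ‖pP κ z₂‖ ∧ ‖pP κ z₂‖ < Real.pi / 2 ∧ F z₁ = F z₂ ∧
      ‖pP κ z₁‖⁻¹ • fderiv ℝ F z₁ (pP κ z₁) = - (‖pP κ z₂‖⁻¹ • fderiv ℝ F z₂ (pP κ z₂))

def CobStatement : Prop :=
  ∀ (G : E5 → Bil E5) (κ : Finset (Fin 5)) (a b : ℝ) (F : E5 → E5), Setup G κ a b → NData G κ F →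
    ∀ z₁ z₂, pN κ z₁ ≠ 0 → pN κ z₂ ≠ 0 → 0 < ‖pP κ z₁‖ → ‖pP κ z₁‖ < Real.pi / 2 →
      0 < ‖pP κ z₂‖ → ‖pP κ z₂‖ < Real.pi / 2 → F z₁ = F z₂ →
      ‖pP κ z₁‖⁻¹ • fderiv ℝ F z₁ (pP κ z₁) ≠ - (‖pP κ z₂‖⁻¹ • fderiv ℝ F z₂ (pP κ z₂))

def CoiStatement : Prop :=
  ∀ (G : E5 → Bil E5) (κ : Finset (Fin 5)) (a b : ℝ) (F : E5 → E5), Setup G κ a b → NData G κ F →
    ∀ z₁ z₂, pN κ z₁ ≠ 0 → pN κ z₂ ≠ 0 → ‖pP κ z₁‖ < Real.pi / 2 → ‖pP κ z₂‖ < Real.pi / 2 →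
      F z₁ = F z₂ → z₁ = z₂

def DetStatement : Prop :=
  ∀ (G : E5 → Bil E5) (κ : Finset (Fin 5)) (a b : ℝ) (F : E5 → E5), Setup G κ a b → NData G κ F →
    ∀ σ y, pP κ σ = 0 → σ ≠ 0 → pN κ y = 0 → 0 < ‖y‖ → ‖y‖ < Real.pi / 2 →
      Dz G F σ * jac κ ‖y‖ ≤ Dz G F (σ + y)

def ChvStatement : Prop :=
  ∀ (G : E5 → Bil E5) (κ : Finset (Fin 5)) (a b : ℝ) (F : E5 → E5), Setup G κ a b → NData G κ F →
    IntegrableOn (fun z => Dz G F z)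
      {z | 1 < ‖pN κ z‖ ∧ ‖pN κ z‖ < Real.exp 1 ∧ ‖pP κ z‖ < Real.pi / 2} ∧
    ∫ z in {z | 1 < ‖pN κ z‖ ∧ ‖pN κ z‖ < Real.exp 1 ∧ ‖pP κ z‖ < Real.pi / 2}, Dz G F z ≤
      ∫ x in slab (Fin 5), sd (G x)

def In4Statement : Prop :=
  ∀ (G : E5 → Bil E5) (a b : ℝ) (F : E5 → E5), Setup G {0, 1, 2, 3} a b → NData G {0, 1, 2, 3} F →
    IntegrableOn (fun z => Dz G F z)
      {z | 1 < ‖pN {0, 1, 2, 3} z‖ ∧ ‖pN {0, 1, 2, 3} z‖ < Real.exp 1 ∧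
        ‖pP {0, 1, 2, 3} z‖ < Real.pi / 2} →
    (∀ σ y, pP {0, 1, 2, 3} σ = 0 → σ ≠ 0 → pN {0, 1, 2, 3} y = 0 → 0 < ‖y‖ →
      ‖y‖ < Real.pi / 2 → Dz G F σ * (Real.sin ‖y‖ / ‖y‖) ^ 3 ≤ Dz G F (σ + y)) →
    8 * Real.pi ^ 2 / 3 ≤ ∫ z in {z | 1 < ‖pN {0, 1, 2, 3} z‖ ∧
      ‖pN {0, 1, 2, 3} z‖ < Real.exp 1 ∧ ‖pP {0, 1, 2, 3} z‖ < Real.pi / 2}, Dz G F z

end Pool.Agent.MVZ
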